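import Mathlib

set_option autoImplicit false

namespace Pool.Agent.V11268.RD

open Polynomial

/-- The binary polynomial with coefficients the bits of `n`. -/
noncomputable def toP (n : ℕ) : (ZMod 2)[X] :=
  ∑ i ∈ Finset.range n.size, if n.testBit i then X ^ i else 0

theorem testBit_of_size_le (n i : ℕ) (h : n.size ≤ i) : n.testBit i = false := by
  apply Nat.testBit_lt_two_pow
  exact Nat.size_le.mp h

theorem coeff_toP (n i : ℕ) : (toP n).coeff i = if n.testBit i then 1 else 0 := by
  rw [toP, finsetSum_coeff]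
  have h : ∀ j ∈ Finset.range n.size, ((if n.testBit j then X ^ j else 0 : (ZMod 2)[X])).coeff i =
      if j = i then (if n.testBit i then 1 else 0) else 0 := by
    intro j _
    by_cases hj : j = i
    · subst hj
      rw [if_pos rfl]
      split_ifs <;> simp
    · rw [if_neg hj]
      split_ifs
      · rw [coeff_X_pow, if_neg (Ne.symm hj)]
      · rw [coeff_zero]
  rw [Finset.sum_congr rfl h, Finset.sum_ite_eq']
  split_ifs with h1 h2 h2
  · rfl
  · rfl
  · rw [Finset.mem_range, not_lt] at h1
    rw [testBit_of_size_le n i h1] at h2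
    exact absurd h2 (by simp)
  · rfl

theorem toP_xor (a b : ℕ) : toP (a ^^^ b) = toP a + toP b := by
  ext i
  rw [coeff_add, coeff_toP, coeff_toP, coeff_toP, Nat.testBit_xor]
  cases a.testBit i <;> cases b.testBit i <;> first | (simp; done) | (simp; decide)

theorem toP_shl (a k : ℕ) : toP (a <<< k) = X ^ k * toP a := by
  ext i
  rw [coeff_toP, Nat.testBit_shiftLeft, coeff_X_pow_mul', coeff_toP]
  by_cases h : k ≤ i
  · simp [h]
  · simp [h]

theorem toP_one : toP 1 = 1 := by
  ext i
  rw [coeff_toP, coeff_one]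
  rcases i with _ | i
  · simp
  · rw [if_neg (by simp [Nat.testBit_succ]), if_neg (by omega)]

/-- Multiply by `1 + x^a`. -/
def m1 (n a : ℕ) : ℕ := n ^^^ (n <<< a)

/-- Multiply by `1 + x^a + x^b`. -/
def m2 (n a b : ℕ) : ℕ := n ^^^ (n <<< a) ^^^ (n <<< b)

theorem toP_m1 (n a : ℕ) : toP (m1 n a) = (1 + X ^ a) * toP n := by
  rw [m1, toP_xor, toP_shl]; ring

theorem toP_m2 (n a b : ℕ) : toP (m2 n a b) = (1 + X ^ a + X ^ b) * toP n := by
  rw [m2, toP_xor, toP_xor, toP_shl, toP_shl]; ring

/-- Number of ones among the lowest `2 ^ k` bits. -/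
def pc : ℕ → ℕ → ℕ
  | 0, n => n % 2
  | k + 1, n => pc k (n % 2 ^ 2 ^ k) + pc k (n / 2 ^ 2 ^ k)

theorem pc_eq (k n : ℕ) : pc k n = ∑ i ∈ Finset.range (2 ^ k), (n.testBit i).toNat := by
  induction k generalizing n with
  | zero =>
    rw [pc, pow_zero, Finset.sum_range_one, Nat.testBit_zero]
    rcases Nat.mod_two_eq_zero_or_one n with h | h <;> simp [h]
  | succ k ih =>
    rw [pc, ih, ih, pow_succ, mul_two, Finset.sum_range_add]
    congr 1
    · refine Finset.sum_congr rfl fun i hi => ?_
      rw [Finset.mem_range] at hi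
      rw [Nat.testBit_mod_two_pow]
      simp [hi]
    · refine Finset.sum_congr rfl fun i _ => ?_
      rw [Nat.testBit_div_two_pow, add_comm]

/-- The weight of a binary polynomial in degrees below `n`. -/
noncomputable def wt (f : (ZMod 2)[X]) (n : ℕ) : ℕ :=
  ∑ i ∈ Finset.range n, if f.coeff i = 0 then 0 else 1

theorem wt_eq_card (f : (ZMod 2)[X]) (n : ℕ) (h : f.natDegree < n) :
    wt f n = f.support.card := by
  rw [wt, Finset.card_eq_sum_ones]
  have : ∑ i ∈ Finset.range n, (if f.coeff i = 0 then 0 else 1) =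
      ∑ i ∈ Finset.range n, (if i ∈ f.support then 1 else 0) := by
    refine Finset.sum_congr rfl fun i _ => ?_
    by_cases h1 : f.coeff i = 0
    · rw [if_pos h1, if_neg (by rw [mem_support_iff, not_not]; exact h1)]
    · rw [if_neg h1, if_pos (mem_support_iff.mpr h1)]
  rw [this, ← Finset.sum_filter]
  congr 1
  ext i
  rw [Finset.mem_filter, Finset.mem_range]
  constructor
  · exact fun h => h.2
  · intro hi
    exact ⟨lt_of_le_of_lt (le_natDegree_of_mem_supp i hi) h, hi⟩

theorem wt_toP (n k : ℕ) : wt (toP n) (2 ^ k) = pc k n := by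
  rw [pc_eq, wt]
  refine Finset.sum_congr rfl fun i _ => ?_
  rw [coeff_toP]
  cases n.testBit i <;> simp

end Pool.Agent.V11268.RD
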