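import Mathlib
import Pool.Agent.V11268.RD.Bits

set_option autoImplicit false

namespace Pool.Agent.V11268.RD

open Polynomial

/-- The order of `f`: the least `D ≥ 1` with `f ∣ 1 + x^D`. -/
noncomputable def ord (f : (ZMod 2)[X]) : ℕ := sInf {D : ℕ | 1 ≤ D ∧ f ∣ 1 + X ^ D}

/-- The proportion of ones in a period of `1 / f`. -/
noncomputable def gam (f : (ZMod 2)[X]) : ℚ :=
  ((((1 + X ^ ord f) / f : (ZMod 2)[X]).support.card : ℕ) : ℚ) / (ord f : ℚ)

theorem dvd_geom (D a : ℕ) : (1 + X ^ D : (ZMod 2)[X]) ∣ 1 + X ^ (D * a) := by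
  have h : (X ^ D - 1 : (ZMod 2)[X]) ∣ (X ^ D) ^ a - 1 := by
    simpa using sub_dvd_pow_sub_pow (X ^ D : (ZMod 2)[X]) 1 a
  rw [← pow_mul] at h
  have e : ∀ n, (X ^ n - 1 : (ZMod 2)[X]) = 1 + X ^ n := by
    intro n
    rw [CharTwo.sub_eq_add, add_comm]
  rwa [e, e] at h

/-- The geometric sum. -/
noncomputable def geo (D a : ℕ) : (ZMod 2)[X] := ∑ i ∈ Finset.range a, X ^ (D * i)

theorem geo_mul (D a : ℕ) : (1 + X ^ D) * geo D a = 1 + X ^ (D * a) := by
  induction a with
  | zero => simp [geo, CharTwo.add_self_eq_zero]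
  | succ a ih =>
    rw [geo, Finset.sum_range_succ, mul_add]
    rw [geo] at ih
    rw [ih, mul_add, pow_add, mul_one]
    have := CharTwo.add_self_eq_zero (X ^ (D * a) : (ZMod 2)[X])
    linear_combination this

theorem natDegree_S (f S : (ZMod 2)[X]) (D : ℕ) (hD : 1 ≤ D) (hf : 1 ≤ f.natDegree)
    (h : f * S = 1 + X ^ D) : S.natDegree < D := by
  have hne : (1 + X ^ D : (ZMod 2)[X]) ≠ 0 := by
    intro h0
    have := congrArg (fun p => coeff p D) h0
    have hD0 : D ≠ 0 := by omega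
    simp [coeff_one, hD0] at this
  have h1 : f ≠ 0 := by rintro rfl; rw [zero_mul] at h; exact hne h.symm
  have h2 : S ≠ 0 := by rintro rfl; rw [mul_zero] at h; exact hne h.symm
  have h3 : (1 + X ^ D : (ZMod 2)[X]).natDegree ≤ D := by
    refine (natDegree_add_le _ _).trans ?_
    rw [natDegree_one, natDegree_X_pow]; omega
  rw [← h, natDegree_mul h1 h2] at h3
  omega

theorem natDegree_Sgeo (S : (ZMod 2)[X]) (D a : ℕ) (hS : S.natDegree < D) (n : ℕ)
    (hn : D * a ≤ n) : (S * geo D a).coeff n = 0 := by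
  induction a with
  | zero => simp [geo]
  | succ a ih =>
    rw [geo, Finset.sum_range_succ, mul_add, coeff_add]
    rw [geo] at ih
    rw [mul_add, mul_one] at hn
    rw [ih (by omega), zero_add, mul_comm, coeff_X_pow_mul', if_pos (by omega)]
    exact coeff_eq_zero_of_natDegree_lt (by omega)

theorem wt_geo (S : (ZMod 2)[X]) (D a : ℕ) (hS : S.natDegree < D) :
    wt (S * geo D a) (D * a) = a * wt S D := by
  induction a with
  | zero => simp [wt]
  | succ a ih =>
    rw [wt, mul_add, mul_one, Finset.sum_range_add, add_mul, one_mul]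
    have hsplit : S * geo D (a + 1) = S * geo D a + X ^ (D * a) * S := by
      rw [geo, geo, Finset.sum_range_succ, mul_add]; ring
    congr 1
    · rw [← ih, wt]
      refine Finset.sum_congr rfl fun i hi => ?_
      rw [Finset.mem_range] at hi
      have hc : (S * geo D (a + 1)).coeff i = (S * geo D a).coeff i := by
        rw [hsplit, coeff_add, coeff_X_pow_mul', if_neg (by omega), add_zero]
      rw [hc]
    · rw [wt]
      refine Finset.sum_congr rfl fun i hi => ?_
      have hc : (S * geo D (a + 1)).coeff (D * a + i) = S.coeff i := by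
        rw [hsplit, coeff_add, natDegree_Sgeo S D a hS _ (by omega), zero_add, coeff_X_pow_mul',
          if_pos (by omega)]
        congr 1; omega
      rw [hc]

/-- The density can be computed from any multiple of the order. -/
theorem gam_eq (f F : (ZMod 2)[X]) (N : ℕ) (hN : 1 ≤ N) (h0 : f.coeff 0 = 1)
    (hf : 1 ≤ f.natDegree) (h : f * F = 1 + X ^ N) : gam f = (wt F N : ℚ) / N := by
  have hne : {D : ℕ | 1 ≤ D ∧ f ∣ 1 + X ^ D}.Nonempty := ⟨N, hN, ⟨F, h.symm⟩⟩
  obtain ⟨hD1, hDd⟩ := Nat.sInf_mem hne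
  have hmin : ∀ m, 1 ≤ m → f ∣ 1 + X ^ m → ord f ≤ m := fun m h1 h2 => Nat.sInf_le ⟨h1, h2⟩
  change 1 ≤ ord f at hD1
  change f ∣ 1 + X ^ ord f at hDd
  set D := ord f with hDdef
  have hfne : f ≠ 0 := by rintro rfl; simp at hf
  -- `D` divides `N`
  have hDN : D ∣ N := by
    rw [Nat.dvd_iff_mod_eq_zero]
    by_contra hmod
    have hb : N % D < D := Nat.mod_lt _ (by omega)
    have hcop : IsCoprime f (X : (ZMod 2)[X]) := by
      rw [isCoprime_comm, Irreducible.coprime_iff_not_dvd irreducible_X, X_dvd_iff, h0]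
      exact one_ne_zero
    have h1 : f ∣ 1 + X ^ (D * (N / D)) := hDd.trans (dvd_geom D (N / D))
    have h2 : f ∣ X ^ (D * (N / D)) * (1 + X ^ (N % D)) := by
      have e : X ^ (D * (N / D)) * (1 + X ^ (N % D)) =
          (1 + X ^ N : (ZMod 2)[X]) + (1 + X ^ (D * (N / D))) := by
        have e1 : (X ^ N : (ZMod 2)[X]) = X ^ (D * (N / D)) * X ^ (N % D) := by
          rw [← pow_add, Nat.div_add_mod]
        rw [e1]
        have := CharTwo.add_self_eq_zero (1 : (ZMod 2)[X])
        linear_combination -this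
      rw [e]
      exact dvd_add ⟨F, h.symm⟩ h1
    have h3 : f ∣ 1 + X ^ (N % D) := (hcop.pow_right).dvd_of_dvd_mul_left h2
    have := hmin (N % D) (by omega) h3
    omega
  obtain ⟨a, ha⟩ := hDN
  have ha1 : 1 ≤ a := by
    rcases Nat.eq_zero_or_pos a with rfl | h
    · omega
    · exact h
  obtain ⟨S, hS⟩ := hDd
  have hdiv : (1 + X ^ D : (ZMod 2)[X]) / f = S := by
    rw [hS, mul_comm]; exact mul_div_cancel_right₀ S hfne
  have hSdeg := natDegree_S f S D hD1 hf hS.symm
  have hF : F = S * geo D a := by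
    apply mul_left_cancel₀ hfne
    rw [h, ← mul_assoc, ← hS, geo_mul, ← ha]
  rw [gam, ← hDdef, hdiv, ← wt_eq_card S D hSdeg, hF, ha, wt_geo S D a hSdeg]
  have hD0 : (D : ℚ) ≠ 0 := by exact_mod_cast (by omega : D ≠ 0)
  have ha0 : (a : ℚ) ≠ 0 := by exact_mod_cast (by omega : a ≠ 0)
  push_cast
  field_simp

end Pool.Agent.V11268.RD
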