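import Mathlib
import Pool.Agent.V11268.RD.Period

set_option autoImplicit false

namespace Pool.Agent.V11268.RD

open Polynomial

/-- The polynomial `(1 + x^32 + x^33) / (1 + x + x^3)`. -/
noncomputable def w : (ZMod 2)[X] := toP 1927662487

theorem w_check : m2 1927662487 1 3 = m2 1 32 33 := by decide +kernel

theorem w_mul : (1 + X ^ 1 + X ^ 3) * w = 1 + X ^ 32 + X ^ 33 := by
  have h2 := congrArg toP w_check
  rw [toP_m2, toP_m2, toP_one, mul_one] at h2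
  exact h2

theorem frob (n a b A B M : ℕ) (hA : a * 2 ^ n = A) (hB : b * 2 ^ n = B) (hM : 2 ^ n = M) :
    (1 + X ^ a + X ^ b : (ZMod 2)[X]) ^ M = 1 + X ^ A + X ^ B := by
  subst hA hB hM
  rw [add_pow_char_pow, add_pow_char_pow, one_pow, ← pow_mul, ← pow_mul]

theorem tri_ne (a b : ℕ) (ha : a ≠ 0) (hb : b ≠ 0) : (1 + X ^ a + X ^ b : (ZMod 2)[X]) ≠ 0 := by
  intro h0
  have := congrArg (fun p => coeff p 0) h0
  simp only [coeff_add, coeff_one_zero, coeff_X_pow, coeff_zero] at this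
  rw [if_neg (Ne.symm ha), if_neg (Ne.symm hb)] at this
  simp at this

theorem e1 : (1 + X ^ 32 + X ^ 33 : (ZMod 2)[X]) ^ 128 = 1 + X ^ 4096 + X ^ 4224 :=
  frob 7 32 33 4096 4224 128 (by norm_num) (by norm_num) (by norm_num)

theorem e2 : (1 + X ^ 32 + X ^ 33 : (ZMod 2)[X]) ^ 8 = 1 + X ^ 256 + X ^ 264 :=
  frob 3 32 33 256 264 8 (by norm_num) (by norm_num) (by norm_num)

theorem e3 : (1 + X ^ 1 + X ^ 3 : (ZMod 2)[X]) ^ 32 = 1 + X ^ 32 + X ^ 96 :=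
  frob 5 1 3 32 96 32 (by norm_num) (by norm_num) (by norm_num)

theorem algebra_step (g p F w' Y x : (ZMod 2)[X]) (hp : p ≠ 0) (hg : g ≠ 0)
    (hw : p * w' = g) (h : (1 + x) * (g ^ 128 * F) = (1 + Y) * (g * (g ^ 8 * p ^ 32))) :
    (1 + x) * g ^ 87 * w' ^ 32 * F = 1 + Y := by
  have hne : p ^ 32 * g ^ 9 ≠ 0 := mul_ne_zero (pow_ne_zero _ hp) (pow_ne_zero _ hg)
  apply mul_left_cancel₀ hne
  have hw2 : p ^ 32 * w' ^ 32 = g ^ 32 := by rw [← mul_pow, hw]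
  calc p ^ 32 * g ^ 9 * ((1 + x) * g ^ 87 * w' ^ 32 * F) =
      (p ^ 32 * w' ^ 32) * (g ^ 96 * (1 + x) * F) := by ring
    _ = (1 + x) * (g ^ 128 * F) := by rw [hw2]; ring
    _ = p ^ 32 * g ^ 9 * (1 + Y) := by rw [h]; ring

theorem toP_m2_one (a b : ℕ) : toP (m2 1 a b) = 1 + X ^ a + X ^ b := by
  rw [toP_m2, toP_one, mul_one]

attribute [local irreducible] m1 m2 toP

theorem identity (F N : ℕ)
    (h : m1 (m2 F 4096 4224) 1 = m1 (m2 (m2 (m2 1 32 96) 256 264) 32 33) N) :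
    ((1 + X ^ 1) * (1 + X ^ 32 + X ^ 33) ^ 87 * w ^ 32 : (ZMod 2)[X]) * toP F = 1 + X ^ N := by
  have h := congrArg toP h
  rw [toP_m1, toP_m2, toP_m1, toP_m2, toP_m2, toP_m2_one] at h
  have h1 := e1
  have h2 := e2
  have h3 := e3
  have hp : (1 + X ^ 1 + X ^ 3 : (ZMod 2)[X]) ≠ 0 := tri_ne 1 3 (by norm_num) (by norm_num)
  have hg : (1 + X ^ 32 + X ^ 33 : (ZMod 2)[X]) ≠ 0 := tri_ne 32 33 (by norm_num) (by norm_num)
  have hw := w_mul
  generalize (1 + X ^ 4096 + X ^ 4224 : (ZMod 2)[X]) = G at *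
  generalize (1 + X ^ 256 + X ^ 264 : (ZMod 2)[X]) = G2 at *
  generalize (1 + X ^ 32 + X ^ 96 : (ZMod 2)[X]) = G3 at *
  generalize (1 + X ^ 32 + X ^ 33 : (ZMod 2)[X]) = g at *
  generalize (1 + X ^ 1 + X ^ 3 : (ZMod 2)[X]) = p at *
  subst h1 h2 h3
  exact algebra_step g p (toP F) w (X ^ N) (X ^ 1) hp hg hw h

end Pool.Agent.V11268.RD
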