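import Mathlib
import Pool.Agent.V11268.RD.Ident

set_option autoImplicit false

namespace Pool.Agent.V11268.RD

def stepA (s t : ℕ) : ℕ := m2 s (4096 * t) (4224 * t) % 2 ^ 135296
def stepB (s t : ℕ) : ℕ := m1 s t % 2 ^ 135296

/-- The cofactor, as a number. -/
def Fn : ℕ := [1, 2, 4, 8, 16, 32, 64, 128, 256, 512, 1024, 2048, 4096, 8192, 16384, 32768, 65536,
  131072].foldl stepB ([1, 2, 4, 8, 16, 32].foldl stepA
    (m2 (m2 (m2 1 32 96) 256 264) 32 33))

theorem check : m1 (m2 Fn 4096 4224) 1 = m1 (m2 (m2 (m2 1 32 96) 256 264) 32 33) 135296 := by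
  decide +kernel

theorem pcFn : pc 18 Fn = 101472 := by
  decide +kernel

theorem exists_cofactor : ∃ F : ℕ,
    m1 (m2 F 4096 4224) 1 = m1 (m2 (m2 (m2 1 32 96) 256 264) 32 33) 135296 ∧ pc 18 F = 101472 :=
  ⟨Fn, check, pcFn⟩

end Pool.Agent.V11268.RD
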